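import Mathlib

/-! Project RCU: balls in locally finite graphs, distances and automorphisms. -/

set_option autoImplicit false

namespace Pool.Agent.Helper30.RCU

open Classical

universe u

variable {V : Type u} {G : SimpleGraph V}

lemma ball_finite (hG : G.Connected) (hlf : ∀ v, (G.neighborSet v).Finite) (x : V) (n : ℕ) :
    {v | G.dist x v ≤ n}.Finite := by
  induction n with
  | zero =>
    refine (Set.finite_singleton x).subset ?_
    intro v hv
    have h1 : G.dist x v = 0 := Nat.le_zero.mp hv
    exact (hG.dist_eq_zero_iff.mp h1).symm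
  | succ n ih =>
    refine (ih.union (ih.biUnion fun v _ => hlf v)).subset ?_
    intro v hv
    have hv' : G.dist x v ≤ n + 1 := hv
    rcases Nat.lt_or_ge (G.dist x v) (n + 1) with h | h
    · exact Or.inl (Nat.lt_succ_iff.mp h)
    · right
      have hd : G.dist x v = n + 1 := le_antisymm hv' h
      obtain ⟨w, hw⟩ := hG.exists_walk_length_eq_dist x v
      have hlen : w.length = n + 1 := by rw [hw, hd]
      have hadj : G.Adj (w.getVert n) (w.getVert (n + 1)) :=
        w.adj_getVert_succ (by omega)
      have hend : w.getVert (n + 1) = v := by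
        rw [← hlen]; exact w.getVert_length
      rw [hend] at hadj
      refine Set.mem_biUnion (x := w.getVert n) ?_ hadj
      have h1 := SimpleGraph.dist_le (w.take n)
      have h2 : (w.take n).length ≤ n := by
        simp
      exact h1.trans h2

lemma touch_finite (hlf : ∀ v, (G.neighborSet v).Finite) {S : Set V} (hS : S.Finite) :
    {e : G.edgeSet | ∃ v ∈ (e : Sym2 V), v ∈ S}.Finite := by
  have hN : (⋃ v ∈ S, G.neighborSet v).Finite := hS.biUnion fun v _ => hlf v
  have h1 : (Set.image2 (fun a b : V => s(a, b)) S (⋃ v ∈ S, G.neighborSet v)).Finite :=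
    hS.image2 _ hN
  refine (h1.preimage (f := fun e : G.edgeSet => (e : Sym2 V))
    Subtype.val_injective.injOn).subset ?_
  rintro e ⟨v, hv, hvS⟩
  obtain ⟨w, hw⟩ : ∃ w, (e : Sym2 V) = s(v, w) := hv
  refine ⟨v, hvS, w, ?_, hw.symm⟩
  refine Set.mem_biUnion hvS ?_
  have h2 := e.2
  rw [hw, SimpleGraph.mem_edgeSet] at h2
  exact h2

lemma touch_ball_finite (hG : G.Connected) (hlf : ∀ v, (G.neighborSet v).Finite) (x : V)
    (n : ℕ) : {e : G.edgeSet | ∃ v ∈ (e : Sym2 V), G.dist x v < n}.Finite := by
  refine (touch_finite hlf (ball_finite hG hlf x n)).subset ?_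
  rintro e ⟨v, hv, h⟩
  exact ⟨v, hv, h.le⟩

lemma sphere_finite (hG : G.Connected) (hlf : ∀ v, (G.neighborSet v).Finite) (x : V) (n : ℕ) :
    {v | G.dist x v = n}.Finite :=
  (ball_finite hG hlf x n).subset fun _ h => le_of_eq h

lemma dist_le_iso (hG : G.Connected) (g : G ≃g G) (x y : V) :
    G.dist (g x) (g y) ≤ G.dist x y := by
  obtain ⟨w, hw⟩ := hG.exists_walk_length_eq_dist x y
  rw [← hw, ← SimpleGraph.Walk.length_map g.toHom w]
  exact SimpleGraph.dist_le _

lemma dist_iso (hG : G.Connected) (g : G ≃g G) (x y : V) :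
    G.dist (g x) (g y) = G.dist x y := by
  refine le_antisymm (dist_le_iso hG g x y) ?_
  have h := dist_le_iso hG g.symm (g x) (g y)
  simpa using h

end Pool.Agent.Helper30.RCU
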