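import Pool.Agent.Helper30.RCU.It

/-! Project RCU: comparison of boundary conditions. -/

set_option autoImplicit false

open Finset

namespace Pool.Agent.Helper30.RCU

open Classical

universe u

lemma mem_union_any {α : Type u} (i : DecidableEq α) {s t : Finset α} {a : α} :
    a ∈ @Union.union _ (@Finset.instUnion _ i) s t ↔ a ∈ s ∨ a ∈ t :=
  @Finset.mem_union _ i s t a

lemma mem_inter_any {α : Type u} (i : DecidableEq α) {s t : Finset α} {a : α} :
    a ∈ @Inter.inter _ (@Finset.instInter _ i) s t ↔ a ∈ s ∧ a ∈ t :=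
  @Finset.mem_inter _ i a s t

lemma mem_sdiff_any {α : Type u} (i : DecidableEq α) {s t : Finset α} {a : α} :
    a ∈ @SDiff.sdiff _ (@Finset.instSDiff _ i) s t ↔ a ∈ s ∧ a ∉ t :=
  @Finset.mem_sdiff _ i s t a

lemma mem_insert_any {α : Type u} (i : DecidableEq α) {s : Finset α} {a b : α} :
    a ∈ @Insert.insert _ _ (@Finset.instInsert _ i) b s ↔ a = b ∨ a ∈ s :=
  @Finset.mem_insert _ i s a b

lemma ex_loops {V ι : Type u} {φ : ι → Sym2 V} {p : ι → ℝ} {q : ℝ} (hp : ∀ e, 0 ≤ p e)
    (hp1 : ∀ e, p e ≤ 1) (hq : 1 ≤ q) (E L : Finset ι) (f : Finset ι → ℝ)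
    (hL : ∀ e ∈ L, ∃ a, φ e = s(a, a)) (hf : ∀ e ∈ L, ∀ ω, f (insert e ω) = f ω) :
    ex φ p q (E ∪ L) f = ex φ p q E f := by
  induction L using Finset.induction_on with
  | empty => simp
  | insert e L he ih =>
    have ih' := ih (fun e' h => hL e' (mem_insert_of_mem h)) (fun e' h => hf e' (mem_insert_of_mem h))
    rw [union_insert]
    by_cases h : e ∈ E ∪ L
    · rw [insert_eq_of_mem h]; exact ih'
    · rw [ex_insert hp hp1 hq h]
      obtain ⟨a, ha⟩ := hL e (mem_insert_self _ _)
      have hθ : ∀ ω, theta φ q e ω = 1 := by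
        intro ω
        rw [theta_mk q ha, if_pos (Conn.refl _ _)]
      have h1 : ex φ p q (E ∪ L) (theta φ q e) = 1 := by
        have : theta φ q e = fun _ => (1 : ℝ) := funext hθ
        rw [this, ex_const hp hp1 hq]
      have h2 : (fun ω => theta φ q e ω * f (insert e ω)) = f := by
        funext ω
        rw [hθ, hf e (mem_insert_self _ _), one_mul]
      rw [h1, h2, ih']
      have : (1 - p e) + p e * 1 = 1 := by ring
      rw [this, div_one]
      ring

lemma ex_mono_set {V ι : Type u} {φ : ι → Sym2 V} {p : ι → ℝ} {q : ℝ} (hp : ∀ e, 0 ≤ p e)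
    (hp1 : ∀ e, p e ≤ 1) (hq : 1 ≤ q) {E E' : Finset ι} (h : E ⊆ E') {f : Finset ι → ℝ}
    (hf0 : ∀ ω, 0 ≤ f ω) (hf : Monotone f) : ex φ p q E f ≤ ex φ p q E' f := by
  have h1 := ex_union_mono (φ := φ) hp hp1 hq E E' hf0 hf
  rwa [Finset.union_eq_right.mpr h] at h1

lemma toLeft_mono {α β : Type u} : Monotone (fun ω : Finset (α ⊕ β) => ω.toLeft) := by
  intro a b h
  exact Finset.toLeft_subset_toLeft h

lemma mem_VF {V : Type u} {G : SimpleGraph V} {F : Finset G.edgeSet} {v : V} :
    v ∈ VF G F ↔ ∃ e ∈ F, v ∈ (e : Sym2 V) := by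
  unfold VF
  rw [mem_ends]

/-- Every boundary condition lies between the free and the wired one. -/
theorem sandwich (hCB : StCB.{u}) {V : Type u} (G : SimpleGraph V) {p q : ℝ} (hp : 0 ≤ p)
    (hp1 : p ≤ 1) (hq : 1 ≤ q) (F : Finset G.edgeSet) (ξ : Set G.edgeSet)
    (g : Finset G.edgeSet → ℝ) (hg0 : ∀ η, 0 ≤ g η) (hg : Monotone g) :
    ex (φW G) (pW G p) q (Lf G F) (fun ω => g ω.toLeft) ≤ kI G p q F ξ g ∧
    kI G p q F ξ g ≤
      ex (φW G) (pW G p) q (Lf G F ∪ Rt G (BF G F)) (fun ω => g ω.toLeft) := by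
  have hP := pW_nonneg G hp
  have hP1 := pW_le_one G hp1
  have hf : Monotone (fun ω : Finset (WE G) => g ω.toLeft) := fun a b h => hg (toLeft_mono h)
  rw [hCB V G p q hp hp1 hq F ξ g]
  refine ⟨ex_mono_set hP hP1 hq ?_ (fun ω => hg0 _) hf, ?_⟩
  · intro e he
    exact mem_union_left _ he
  · -- split the wiring into loops and the rest
    obtain ⟨L, hL⟩ : ∃ L : Finset (WE G), L = (Kx G F ξ).filter
        (fun e => ∃ a, φW G e = s(a, a)) := ⟨_, rfl⟩
    obtain ⟨K', hK'⟩ : ∃ K' : Finset (WE G), K' = (Kx G F ξ).filter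
        (fun e => ¬ ∃ a, φW G e = s(a, a)) := ⟨_, rfl⟩
    have hKr : ∀ e ∈ Kx G F ξ, ∃ a b, e = Sum.inr (a, b) ∧ a ∈ VF G F ∧ b ∈ VF G F ∧
        Conn (fun e : G.edgeSet => (e : Sym2 V)) (ξ \ (F : Set G.edgeSet)) a b := by
      intro e he
      unfold Kx at he
      obtain ⟨⟨a, b⟩, hz, rfl⟩ := Finset.mem_map.mp he
      rw [mem_filter, mem_product] at hz
      exact ⟨a, b, rfl, hz.1.1, hz.1.2, hz.2⟩
    have e1 : ex (φW G) (pW G p) q (Lf G F ∪ Kx G F ξ) (fun ω => g ω.toLeft) =
        ex (φW G) (pW G p) q ((Lf G F ∪ K') ∪ L) (fun ω => g ω.toLeft) := by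
      congr 1
      ext e
      simp only [mem_union, hL, hK', mem_filter]
      tauto
    have e2 : ex (φW G) (pW G p) q ((Lf G F ∪ K') ∪ L) (fun ω => g ω.toLeft) =
        ex (φW G) (pW G p) q (Lf G F ∪ K') (fun ω => g ω.toLeft) := by
      have h0 := ex_loops (φ := φW G) hP hP1 hq (Lf G F ∪ K') L (fun ω => g ω.toLeft) ?_ ?_
      · rw [← h0]
        congr 1
        ext e
        simp only [mem_union_any]
      · intro e he
        rw [hL, mem_filter] at he
        exact he.2
      · intro e he ω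
        rw [hL, mem_filter] at he
        obtain ⟨a, b, rfl, -⟩ := hKr e he.1
        refine congrArg g ?_
        ext x
        rw [Finset.mem_toLeft, Finset.mem_toLeft, mem_insert_any]
        simp
    rw [e1, e2]
    refine ex_mono_set hP hP1 hq ?_ (fun ω => hg0 _) hf
    intro e he
    rcases mem_union.mp he with he | he
    · exact mem_union_left _ he
    · refine mem_union_right _ ?_
      rw [hK', mem_filter] at he
      obtain ⟨a, b, rfl, ha, hb, hc⟩ := hKr e he.1
      have hab : a ≠ b := by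
        rintro rfl
        exact he.2 ⟨a, rfl⟩
      have hB : ∀ u v, u ≠ v → u ∈ VF G F → Conn (fun e : G.edgeSet => (e : Sym2 V))
          (ξ \ (F : Set G.edgeSet)) u v → u ∈ BF G F := by
        intro u v huv hu hcuv
        refine mem_filter.mpr ⟨hu, ?_⟩
        by_contra hcon
        push Not at hcon
        refine huv (eq_of_conn_of_isolated (ω := ξ \ (F : Set G.edgeSet)) ?_ hcuv)
        intro e' he'
        exact hcon e' (fun h => he'.2 (by exact_mod_cast h))
      exact mem_Rt_inr.mpr ⟨hB a b hab ha hc, hB b a hab.symm hb hc.symm⟩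

/-- The difference between the wired and the free expectation of a local function. -/
theorem wired_free (hMK : StMK.{u}) {V : Type u} (G : SimpleGraph V) {p q : ℝ} (hp : 0 ≤ p)
    (hp1 : p ≤ 1) (hq : 1 ≤ q) (F K : Finset G.edgeSet) (hKF : K ⊆ F)
    (g : Finset G.edgeSet → ℝ) (hg0 : ∀ η, 0 ≤ g η) (hg1 : ∀ η, g η ≤ 1) (hg : Monotone g)
    (hgK : ∀ η, g η = g (η ∩ K)) (c : ℝ) (hc : 0 ≤ c)
    (hbd : ∀ x ∈ VF G K, ∀ z ∈ BF G F,
      ex (φW G) (pW G p) q (Lf G F ∪ Rt G (BF G F)) (ind (φW G) x z) ≤ c) :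
    ex (φW G) (pW G p) q (Lf G F ∪ Rt G (BF G F)) (fun ω => g ω.toLeft) ≤
      ex (φW G) (pW G p) q (Lf G F) (fun ω => g ω.toLeft) + (VF G K).card * c := by
  have hP := pW_nonneg G hp
  have hP1 := pW_le_one G hp1
  have hf : Monotone (fun ω : Finset (WE G) => g ω.toLeft) := fun a b h => hg (toLeft_mono h)
  rcases (BF G F).eq_empty_or_nonempty with hB | ⟨z, hz⟩
  · have h1 : Lf G F ∪ Rt G (BF G F) = Lf G F := by
      ext e
      rw [mem_union, hB]
      rcases e with e | ⟨a, b⟩
      · exact ⟨fun h => h.resolve_right not_mem_Rt_inl, Or.inl⟩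
      · exact ⟨fun h => h.resolve_right fun h' => by
          exact absurd (mem_Rt_inr.mp h').1 (Finset.notMem_empty _), Or.inl⟩
    rw [h1]
    have : (0 : ℝ) ≤ ((VF G K).card : ℝ) * c := mul_nonneg (Nat.cast_nonneg _) hc
    linarith
  · have key := hMK V (WE G) (φW G) (pW G p) q hP hP1 hq (Lf G F) (Lf G F ∪ Rt G (BF G F))
      (Lf G K) z ?_ ?_ ?_ (fun ω => g ω.toLeft) hf (fun ω => hg0 _) (fun ω => hg1 _) ?_
    · refine key.trans ?_
      have hends : ends (φW G) (Lf G K) = VF G K := by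
        ext v
        rw [mem_ends, mem_VF]
        constructor
        · rintro ⟨e, he, hv⟩
          rcases e with e | e
          · exact ⟨e, mem_Lf_inl.mp he, hv⟩
          · exact absurd he not_mem_Lf_inr
        · rintro ⟨e, he, hv⟩
          exact ⟨Sum.inl e, mem_Lf_inl.mpr he, hv⟩
      rw [hends]
      have h2 : ∑ x ∈ VF G K, ex (φW G) (pW G p) q (Lf G F ∪ Rt G (BF G F)) (ind (φW G) x z) ≤
          ∑ _x ∈ VF G K, c := Finset.sum_le_sum fun x hx => hbd x hx z hz
      rw [Finset.sum_const, nsmul_eq_mul] at h2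
      linarith
    · intro e he
      rcases e with e | e
      · exact mem_Lf_inl.mpr (hKF (mem_Lf_inl.mp he))
      · exact absurd he not_mem_Lf_inr
    · intro e he
      exact mem_union_left _ he
    · intro e he
      rw [mem_sdiff_any, mem_union] at he
      rcases e with e | ⟨a, b⟩
      · rcases he.1 with h | h
        · exact absurd h he.2
        · exact absurd h not_mem_Rt_inl
      · refine ⟨rfl, ?_⟩
        have hab : a ∈ BF G F ∧ b ∈ BF G F := by
          rcases he.1 with h | h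
          · exact absurd h not_mem_Lf_inr
          · exact mem_Rt_inr.mp h
        intro v hv
        have hvB : v ∈ BF G F := by
          have h2 : v ∈ s(a, b) := hv
          rw [Sym2.mem_iff] at h2
          rcases h2 with rfl | rfl
          · exact hab.1
          · exact hab.2
        refine conn_of_mem (e := Sum.inr (v, z)) rfl ?_
        rw [Finset.mem_coe, mem_sdiff_any, mem_union]
        exact ⟨Or.inr (mem_Rt_inr.mpr ⟨hvB, hz⟩), not_mem_Lf_inr⟩
    · intro ω
      refine (hgK _).trans (congrArg g ?_)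
      ext x
      rw [Finset.mem_toLeft, mem_inter_any, mem_inter_any, Finset.mem_toLeft, mem_Lf_inl]

end Pool.Agent.Helper30.RCU
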