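import Pool.Agent.Helper30.RCU.Base

/-!
# Project RCU (MP_e3e162_pr): definitions and module statements

THEOREM (goal). Let `G` be a connected locally finite vertex-transitive graph, `1 ≤ q ≤ 2`,
`0 ≤ p ≤ 1` and `μ` a random-cluster infinite-volume measure with parameters `(p,q)` such that the
sum of `μ(x ↔ y)` over the sphere `{y | dist x y = n}` is `< 1` for some `x` and `n`. Then `μ` is the
only random-cluster infinite-volume measure with these parameters (and `μ(y ↔ z)` decays
exponentially).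

The file `Base.lean` contains the finite-volume theory for arbitrary `V`, `ι`, `φ : ι → Sym2 V`,
edge probabilities `p : ι → ℝ` and weights `∏ p ∏ (1-p) q⁻¹ ^ rk`, including FKG (`ex_fkg`),
monotonicity in the edge set (`ex_union_mono`), the one-edge formula (`ex_insert`) and the Lieb
inequality (`lieb_aux`).
-/

set_option autoImplicit false

open Finset

namespace Pool.Agent.Helper30.RCU

open Classical

universe u

/-- edges of `G` together with all possible wiring edges between two vertices -/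
abbrev WE {V : Type u} (G : SimpleGraph V) : Type u := G.edgeSet ⊕ (V × V)

/-- end vertices -/
def φW {V : Type u} (G : SimpleGraph V) : WE G → Sym2 V :=
  Sum.elim (fun e => (e : Sym2 V)) (fun z => s(z.1, z.2))

/-- `p` on the edges of `G`, `1` on the wiring edges -/
def pW {V : Type u} (G : SimpleGraph V) (p : ℝ) : WE G → ℝ :=
  Sum.elim (fun _ => p) (fun _ => 1)

/-- the edges of `G` in `F`, as edges in `WE G` -/
def Lf {V : Type u} (G : SimpleGraph V) (F : Finset G.edgeSet) : Finset (WE G) :=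
  F.map Function.Embedding.inl

/-- the wiring edges between the vertices of `B` -/
noncomputable def Rt {V : Type u} (G : SimpleGraph V) (B : Finset V) : Finset (WE G) :=
  (B ×ˢ B).map Function.Embedding.inr

/-- the end vertices of the edges of `F` -/
noncomputable def VF {V : Type u} (G : SimpleGraph V) (F : Finset G.edgeSet) : Finset V :=
  ends (fun e : G.edgeSet => (e : Sym2 V)) F

/-- the end vertices of edges of `F` which are also end vertices of an edge not in `F` -/
noncomputable def BF {V : Type u} (G : SimpleGraph V) (F : Finset G.edgeSet) : Finset V :=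
  (VF G F).filter fun v => ∃ e : G.edgeSet, e ∉ F ∧ v ∈ (e : Sym2 V)

/-- the wiring induced on the vertices of `F` by the configuration `ξ` off `F` -/
noncomputable def Kx {V : Type u} (G : SimpleGraph V) (F : Finset G.edgeSet) (ξ : Set G.edgeSet) :
    Finset (WE G) :=
  ((VF G F ×ˢ VF G F).filter fun z =>
    Conn (fun e : G.edgeSet => (e : Sym2 V)) (ξ \ (F : Set G.edgeSet)) z.1 z.2).map
    Function.Embedding.inr

/-- finite-volume weight of `η ⊆ F` with boundary condition `ξ` (`kU .. (VF G F)` is the number of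
clusters which contain an end vertex of an edge of `F`) -/
noncomputable def wI {V : Type u} (G : SimpleGraph V) (p q : ℝ) (F : Finset G.edgeSet)
    (ξ : Set G.edgeSet) (η : Finset G.edgeSet) : ℝ :=
  p ^ η.card * (1 - p) ^ (F.card - η.card) *
    q ^ kU (fun e : G.edgeSet => (e : Sym2 V)) (VF G F) ((η : Set G.edgeSet) ∪ (ξ \ F))

/-- finite-volume expectation with boundary condition `ξ` of a function of `η ⊆ F` -/
noncomputable def kI {V : Type u} (G : SimpleGraph V) (p q : ℝ) (F : Finset G.edgeSet)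
    (ξ : Set G.edgeSet) (g : Finset G.edgeSet → ℝ) : ℝ :=
  (∑ η ∈ F.powerset, wI G p q F ξ η * g η) / ∑ η ∈ F.powerset, wI G p q F ξ η

/-- CB (about 170 lines). The finite-volume measure with boundary condition `ξ` is the
random-cluster measure of a finite multigraph with wiring edges of probability one.

Proof. Write `φ₀ e = (e : Sym2 V)`, `K = Kx G F ξ`, `U = VF G F`, for `η ⊆ F` let
`ω η = Lf G η ∪ K`.
(1) For `a, b ∈ U` and `η ⊆ F`: `Conn φ₀ (η ∪ (ξ \ F)) a b ↔ Conn (φW G) (ω η) a b`.
(⇐) induction on a walk in `gr (φW G) (ω η)`: each step is an edge of `η` or a wiring edge in `K`,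
whose ends are connected in `ξ \ F`. (⇒) Claim: for `a ∈ U` and every `v` with
`Conn φ₀ (η ∪ (ξ \ F)) a v` there is `b ∈ U` with `Conn (φW G) (ω η) a b` and
`Conn φ₀ (ξ \ F) b v`. Induction on the walk, last step `v w` (e.g. on the reversed walk): if it is an
edge of `η ⊆ F` then `v, w ∈ U`, the wiring edge `(b, v)` is in `K`, so take the new `b := w`; if it is
an edge of `ξ \ F` keep `b`. For `v ∈ U` use the wiring edge `(b, v)`.
(2) `q ^ kU φ₀ U (η ∪ (ξ \ F)) = C * q⁻¹ ^ rk (φW G) (ω η)` for all `η ⊆ F`, where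
`C = q ^ (kU φ₀ U (ξ \ F) + rk (φW G) K)`: more precisely
`kU φ₀ U (η ∪ (ξ \ F)) + rk (φW G) (ω η) = kU φ₀ U (ξ \ F) + rk (φW G) K` by induction on `η` with
`kU_insert_of_conn`, `kU_insert_of_not_conn`, `rk_insert_of_conn`, `rk_insert_of_not_conn` and (1).
(3) In `ex` only the configurations `ω ⊆ Lf G F ∪ K` containing `K` have a nonzero weight
(a missing wiring edge gives the factor `1 - 1`); these are the `ω η`, `η ⊆ F`
(`Finset.toLeft`, `Finset.toRight`), with `wt = p ^ card η * (1-p) ^ (card F - card η) * q⁻¹ ^ rk`.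
So numerator and denominator of `ex` are those of `kI` divided by `C ≠ 0`. -/
def StCB : Prop := ∀ (V : Type u) (G : SimpleGraph V) (p q : ℝ), 0 ≤ p → p ≤ 1 → 1 ≤ q →
    ∀ (F : Finset G.edgeSet) (ξ : Set G.edgeSet) (g : Finset G.edgeSet → ℝ),
    kI G p q F ξ g = ex (φW G) (pW G p) q (Lf G F ∪ Kx G F ξ) (fun ω => g ω.toLeft)

/-- MK (about 170 lines). Free versus wired: domain Markov property plus monotonicity.

Proof. For `ω ⊆ H` let `C ω = {v ∈ Y | Conn φ ω v z}` where `Y = insert z (ends φ H)` (finite). Split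
`f = f * 1{C ω ∩ ends K = ∅} + f * 1{..}ᶜ`; the second term is at most
`∑_{x ∈ ends φ K} ind φ x z ω` (`f ≤ 1`). For the first: sum over the finitely many possible sets
`c ⊆ Y` (`z ∈ c`, `c ∩ ends K = ∅`). Let `H1 = ` edges of `H` with both ends in `c`, `H3 = ` edges of
`H` with no end in `c`. If `C ω = c` then no edge of `ω` has exactly one end in `c`, so
`ω = ω1 ∪ ω3`, `ω1 = ω ∩ H1`, `ω3 = ω ∩ H3`, every `v ∈ c` is connected to `z` in `ω1`; conversely for
`ω1 ⊆ H1` with this property and any `ω3 ⊆ H3` we have `C (ω1 ∪ ω3) = c`. Moreover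
`rk φ (ω1 ∪ ω3) = rk φ ω1 + rk φ ω3` (disjoint vertex sets: induction on `ω3`, adding an edge with
ends outside `c` changes both sides equally, because connections outside `c` do not use `ω1`). Hence
`S H (f * 1{C = c}) = A c * S H3 f` and `S H (1{C = c}) = A c * S H3 1`, with
`A c = ∑_{ω1} ∏_{ω1} p ∏_{(H \ H3) \ ω1} (1-p) q⁻¹^{rk ω1}` (`f (ω1 ∪ ω3) = f ω3` since `K ⊆ H3`:
the ends of the edges of `K` are not in `c`, and `f ω = f (ω ∩ K)`). So
`ex H (f * 1{C = c}) = ex H (1{C = c}) * ex H3 f`. If `ex H (1{C = c}) ≠ 0` then `H3 ⊆ F`: otherwise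
some `e ∈ H \ F` has no end in `c`; configurations of nonzero weight contain `H \ F` (`p = 1` there),
in which the ends of `e` are connected to `z`, so they are in `C ω = c`, contradiction. So
`ex H3 f ≤ ex F f` (`ex_union_mono`), and `∑_c ex H (1{C = c}) ≤ 1`. -/
def StMK : Prop := ∀ (V ι : Type u) (φ : ι → Sym2 V) (p : ι → ℝ) (q : ℝ), (∀ e, 0 ≤ p e) →
    (∀ e, p e ≤ 1) → 1 ≤ q → ∀ (F H K : Finset ι) (z : V), K ⊆ F → F ⊆ H →
    (∀ e ∈ H \ F, p e = 1 ∧ ∀ v ∈ φ e, Conn φ ((H \ F : Finset ι) : Set ι) v z) →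
    ∀ f : Finset ι → ℝ, Monotone f → (∀ ω, 0 ≤ f ω) → (∀ ω, f ω ≤ 1) → (∀ ω, f ω = f (ω ∩ K)) →
    ex φ p q H f ≤ ex φ p q F f + ∑ x ∈ ends φ K, ex φ p q H (ind φ x z)

/-- TR (about 80 lines). Invariance under relabelling.

Proof. For `ω : Finset ι`: `Conn φ' (ω.map j) (τ x) (τ y) ↔ Conn φ ω x y` (walks; `τ`, `j` injective;
for the direction from left to right: a walk in `gr φ' (ω.map j)` which starts at `τ x` stays in the
range of `τ`), `ends φ' (ω.map j) = (ends φ ω).map τ`, hence (or by induction on `ω` with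
`rk_insert_of_conn`, `rk_insert_of_not_conn`) `rk φ' (ω.map j) = rk φ ω`; the subsets of `E.map j` are
the `ω.map j`, `ω ⊆ E`, and the weights agree. -/
def StTR : Prop := ∀ (V V' ι ι' : Type u) (j : ι ↪ ι') (τ : V ↪ V') (φ : ι → Sym2 V)
    (φ' : ι' → Sym2 V') (p : ι → ℝ) (p' : ι' → ℝ) (q : ℝ),
    (∀ e, φ' (j e) = (φ e).map τ) → (∀ e, p' (j e) = p e) → ∀ (E : Finset ι) (x y : V),
    ex φ' p' q (E.map j) (ind φ' (τ x) (τ y)) = ex φ p q E (ind φ x y)

end Pool.Agent.Helper30.RCU
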