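import Pool.Agent.Helper30.RCU.InfDefs
import Pool.Agent.Helper30.RCU.Sand
import Pool.Agent.Helper37.RCU.M_CB
import Pool.Agent.Helper41.RCU.M_MK
import Pool.Agent.Helper74.RCU.M_TR

/-!
# Project RCU: random-cluster infinite-volume measures

First consequences of the comparison of boundary conditions for the measures defined in
`InfDefs.lean`.
-/

set_option autoImplicit false

open Finset MeasureTheory

namespace Pool.Agent.Helper30.RCU

open Classical

universe u

section

variable {V : Type u} {G : SimpleGraph V} {p q : ℝ}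

lemma clusters_eq (F : Finset G.edgeSet) (ω : Set G.edgeSet) :
    clusters G F ω = kU (fun e : G.edgeSet => (e : Sym2 V)) (VF G F) ω := by
  change Set.ncard {c : (gr (fun e : G.edgeSet => (e : Sym2 V)) ω).ConnectedComponent |
    ∃ e ∈ F, ∃ v ∈ (e : Sym2 V),
      (gr (fun e : G.edgeSet => (e : Sym2 V)) ω).connectedComponentMk v = c} = _
  unfold kU
  rw [← Set.ncard_coe_finset]
  congr 1
  ext c
  rw [Finset.mem_coe, Finset.mem_image]
  constructor
  · rintro ⟨e, he, v, hv, h⟩
    exact ⟨v, mem_VF.mpr ⟨e, he, hv⟩, h⟩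
  · rintro ⟨v, hv, h⟩
    obtain ⟨e, he, hv⟩ := mem_VF.mp hv
    exact ⟨e, he, v, hv, h⟩

lemma kernel_eq (F : Finset G.edgeSet) (ξ : Set G.edgeSet) (A : Set (Set G.edgeSet))
    (g : Finset G.edgeSet → ℝ)
    (h1 : ∀ η : Finset G.edgeSet, η ⊆ F →
      (η : Set G.edgeSet) ∪ (ξ \ (F : Set G.edgeSet)) ∈ A → g η = 1)
    (h0 : ∀ η : Finset G.edgeSet, η ⊆ F →
      (η : Set G.edgeSet) ∪ (ξ \ (F : Set G.edgeSet)) ∉ A → g η = 0) :
    kernel G p q F ξ A = kI G p q F ξ g := by
  have hw : ∀ η, weight G p q F ξ η = wI G p q F ξ η := by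
    intro η
    unfold weight wI
    rw [clusters_eq]
  unfold kernel kI
  congr 1
  · rw [Finset.sum_filter]
    refine Finset.sum_congr rfl fun η hη => ?_
    have hη' := mem_powerset.mp hη
    rw [hw]
    by_cases h : (η : Set G.edgeSet) ∪ (ξ \ (F : Set G.edgeSet)) ∈ A
    · rw [if_pos h, h1 η hη' h, mul_one]
    · rw [if_neg h, h0 η hη' h, mul_zero]
  · exact Finset.sum_congr rfl fun η _ => hw η

/-- bounds for the probability of an event from bounds for the kernel -/
lemma measure_bounds {μ : Measure (Set G.edgeSet)} (hμ : IsRandomCluster G p q μ)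
    (F : Finset G.edgeSet) {A : Set (Set G.edgeSet)} (hA : MeasurableSet A) {a b : ℝ}
    (h : ∀ ξ, a ≤ kernel G p q F ξ A ∧ kernel G p q F ξ A ≤ b) :
    ENNReal.ofReal a ≤ μ A ∧ μ A ≤ ENNReal.ofReal b := by
  have := hμ.isProbabilityMeasure
  rw [hμ.dlr F A hA]
  constructor
  · calc ENNReal.ofReal a = ∫⁻ _ξ, ENNReal.ofReal a ∂μ := by
          rw [lintegral_const, measure_univ, mul_one]
      _ ≤ _ := lintegral_mono fun ξ => ENNReal.ofReal_le_ofReal (h ξ).1
  · calc _ ≤ ∫⁻ _ξ, ENNReal.ofReal b ∂μ :=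
          lintegral_mono fun ξ => ENNReal.ofReal_le_ofReal (h ξ).2
      _ = ENNReal.ofReal b := by rw [lintegral_const, measure_univ, mul_one]

/-- events which depend only on the edges in `F` are measurable -/
lemma measurable_local (F : Finset G.edgeSet) (P : Set G.edgeSet → Prop) :
    MeasurableSet {ω : Set G.edgeSet | P (ω ∩ F)} := by
  have h1 : {ω : Set G.edgeSet | P (ω ∩ F)} =
      ⋃ η ∈ (F.powerset.filter fun η : Finset G.edgeSet => P (η : Set G.edgeSet)),
        {ω : Set G.edgeSet | ω ∩ (F : Set G.edgeSet) = (η : Set G.edgeSet)} := by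
    ext ω
    simp only [Set.mem_ofPred_eq, Set.mem_iUnion, exists_prop, mem_filter, mem_powerset]
    constructor
    · intro h
      refine ⟨F.filter (fun e => e ∈ ω), ⟨filter_subset _ _, ?_⟩, ?_⟩
      · have : ((F.filter (fun e => e ∈ ω) : Finset G.edgeSet) : Set G.edgeSet) = ω ∩ F := by
          ext e; simp [and_comm]
        rw [this]; exact h
      · ext e; simp [and_comm]
    · rintro ⟨η, ⟨_, h2⟩, h3⟩
      rw [h3]; exact h2
  rw [h1]
  refine Finset.measurableSet_biUnion _ fun η hη => ?_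
  have hη' : η ⊆ F := mem_powerset.mp (mem_filter.mp hη).1
  have h2 : {ω : Set G.edgeSet | ω ∩ (F : Set G.edgeSet) = (η : Set G.edgeSet)} =
      (⋂ e ∈ η, {ω : Set G.edgeSet | e ∈ ω}) ∩ ⋂ e ∈ F \ η, {ω : Set G.edgeSet | e ∉ ω} := by
    ext ω
    simp only [Set.mem_ofPred_eq, Set.mem_inter_iff, Set.mem_iInter, mem_sdiff]
    constructor
    · intro h
      constructor
      · intro e he
        have : e ∈ ω ∩ (F : Set G.edgeSet) := by rw [h]; exact he
        exact this.1
      · intro e he heω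
        have : e ∈ (η : Set G.edgeSet) := by rw [← h]; exact ⟨heω, he.1⟩
        exact he.2 this
    · rintro ⟨h3, h4⟩
      ext e
      constructor
      · rintro ⟨h5, h6⟩
        by_contra h7
        exact h4 e ⟨h6, h7⟩ h5
      · intro h5
        exact ⟨h3 e h5, hη' h5⟩
  rw [h2]
  refine MeasurableSet.inter ?_ ?_
  · exact Finset.measurableSet_biInter _ fun e _ => measurableSet_mem e
  · exact Finset.measurableSet_biInter _ fun e _ => measurableSet_notMem e

/-- The expectation of an indicator of a connection, in the left edges. -/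
lemma conn_toLeft {ω : Finset (WE G)} {x y : V}
    (h : Conn (fun e : G.edgeSet => (e : Sym2 V)) ω.toLeft x y) : Conn (φW G) ω x y := by
  obtain ⟨w⟩ := h
  induction w with
  | nil => exact Conn.refl _ _
  | @cons a b c hadj _ ih =>
    rw [gr, SimpleGraph.fromEdgeSet_adj] at hadj
    obtain ⟨⟨e, he, hee⟩, -⟩ := hadj
    refine Conn.trans (conn_of_mem (e := Sum.inl e) hee ?_) ih
    have he' : e ∈ ω.toLeft := by exact_mod_cast he
    exact_mod_cast Finset.mem_toLeft.mp he'

lemma conn_toLeft' {F : Finset G.edgeSet} {ω : Finset (WE G)} (hω : ω ⊆ Lf G F) {x y : V}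
    (h : Conn (φW G) ω x y) : Conn (fun e : G.edgeSet => (e : Sym2 V)) ω.toLeft x y := by
  obtain ⟨w⟩ := h
  induction w with
  | nil => exact Conn.refl _ _
  | @cons a b c hadj _ ih =>
    rw [gr, SimpleGraph.fromEdgeSet_adj] at hadj
    obtain ⟨⟨e, he, hee⟩, -⟩ := hadj
    have he' : e ∈ ω := by exact_mod_cast he
    rcases e with e | z
    · refine Conn.trans (conn_of_mem (e := e) hee ?_) ih
      exact_mod_cast Finset.mem_toLeft.mpr he'
    · exact absurd (hω he') not_mem_Lf_inr

end

end Pool.Agent.Helper30.RCU
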