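import Mathlib

/-!
# Random-cluster infinite-volume measures on a graph

Configurations are sets of (open) edges of `G`, with the product sigma-algebra.
-/

set_option autoImplicit false

open MeasureTheory

namespace Pool.Agent.Helper30.RCU

open Classical

universe u

/-- The graph of the open edges of the configuration `ω` (a set of edges of `G`). -/
def openGraph {V : Type u} (G : SimpleGraph V) (ω : Set G.edgeSet) : SimpleGraph V :=
  SimpleGraph.fromEdgeSet (Subtype.val '' ω)

/-- The number of open clusters of `ω` which contain an end vertex of some edge of `F`. -/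
noncomputable def clusters {V : Type u} (G : SimpleGraph V) (F : Finset G.edgeSet)
    (ω : Set G.edgeSet) : ℕ :=
  Set.ncard {c : (openGraph G ω).ConnectedComponent |
    ∃ e ∈ F, ∃ v ∈ (e : Sym2 V), (openGraph G ω).connectedComponentMk v = c}

/-- The weight of the configuration which is `η` on `F` (`η` a subset of `F`) and `ξ` off `F`. -/
noncomputable def weight {V : Type u} (G : SimpleGraph V) (p q : ℝ) (F : Finset G.edgeSet)
    (ξ : Set G.edgeSet) (η : Finset G.edgeSet) : ℝ :=
  p ^ η.card * (1 - p) ^ (F.card - η.card) *
    q ^ clusters G F ((η : Set G.edgeSet) ∪ (ξ \ (F : Set G.edgeSet)))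

/-- The finite-volume random-cluster probability of the event `A` in `F` with boundary condition
`ξ` off `F`. -/
noncomputable def kernel {V : Type u} (G : SimpleGraph V) (p q : ℝ) (F : Finset G.edgeSet)
    (ξ : Set G.edgeSet) (A : Set (Set G.edgeSet)) : ℝ :=
  (∑ η ∈ F.powerset.filter (fun η : Finset G.edgeSet =>
      (η : Set G.edgeSet) ∪ (ξ \ (F : Set G.edgeSet)) ∈ A), weight G p q F ξ η) /
    ∑ η ∈ F.powerset, weight G p q F ξ η

/-- Random-cluster infinite-volume measures with parameters `(p,q)` on `G`: probability measures
on the sets of edges (product sigma-algebra) whose conditional law on every finite edge set `F` given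
the configuration `ξ` off `F` is the finite-volume random-cluster law (DLR equation). -/
structure IsRandomCluster {V : Type u} (G : SimpleGraph V) (p q : ℝ)
    (μ : Measure (Set G.edgeSet)) : Prop where
  isProbabilityMeasure : IsProbabilityMeasure μ
  dlr : ∀ (F : Finset G.edgeSet) (A : Set (Set G.edgeSet)), MeasurableSet A →
    μ A = ∫⁻ ξ, ENNReal.ofReal (kernel G p q F ξ A) ∂μ

end Pool.Agent.Helper30.RCU
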