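import Pool.Agent.Helper30.RCU.Defs

/-! Project RCU: iteration of the Lieb inequality in a wired box. -/

set_option autoImplicit false

open Finset

namespace Pool.Agent.Helper30.RCU

open Classical

universe u

lemma pW_nonneg {V : Type u} (G : SimpleGraph V) {p : ℝ} (hp : 0 ≤ p) (e : WE G) :
    0 ≤ pW G p e := by
  rcases e with e | z
  · exact hp
  · exact zero_le_one

lemma pW_le_one {V : Type u} (G : SimpleGraph V) {p : ℝ} (hp : p ≤ 1) (e : WE G) :
    pW G p e ≤ 1 := by
  rcases e with e | z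
  · exact hp
  · exact le_rfl

lemma mem_Lf_inl {V : Type u} {G : SimpleGraph V} {F : Finset G.edgeSet} {e : G.edgeSet} :
    (Sum.inl e : WE G) ∈ Lf G F ↔ e ∈ F := by
  unfold Lf
  simp

lemma not_mem_Lf_inr {V : Type u} {G : SimpleGraph V} {F : Finset G.edgeSet} {z : V × V} :
    (Sum.inr z : WE G) ∉ Lf G F := by
  unfold Lf
  simp

lemma mem_Rt_inr {V : Type u} {G : SimpleGraph V} {B : Finset V} {a b : V} :
    (Sum.inr (a, b) : WE G) ∈ Rt G B ↔ a ∈ B ∧ b ∈ B := by
  unfold Rt
  simp

lemma not_mem_Rt_inl {V : Type u} {G : SimpleGraph V} {B : Finset V} {e : G.edgeSet} :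
    (Sum.inl e : WE G) ∉ Rt G B := by
  unfold Rt
  simp

lemma ex_ind_le_one {V ι : Type u} {φ : ι → Sym2 V} {p : ι → ℝ} {q : ℝ} (hp : ∀ e, 0 ≤ p e)
    (hp1 : ∀ e, p e ≤ 1) (hq : 1 ≤ q) (E : Finset ι) (x y : V) :
    ex φ p q E (ind φ x y) ≤ 1 := by
  have h := ex_le (φ := φ) hp hp1 hq E (f := ind φ x y) (g := fun _ => 1)
    (fun ω => ind_le_one x y ω)
  rwa [ex_const hp hp1 hq] at h

/-- Iteration of the Lieb inequality. -/
theorem iter {V : Type u} (G : SimpleGraph V) (hG : G.Connected) {p q : ℝ} (hp : 0 ≤ p)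
    (hp1 : p ≤ 1) (hq : 1 ≤ q) (hq2 : q ≤ 2) (n : ℕ) {α : ℝ} (hα : 0 ≤ α)
    (T : V → Finset G.edgeSet)
    (hT : ∀ x e, e ∈ T x ↔ ∃ v ∈ (e : Sym2 V), G.dist x v < n)
    (Sp : V → Finset V) (hSp : ∀ x y, y ∈ Sp x ↔ G.dist x y = n)
    (hsum : ∀ x, ∑ y ∈ Sp x, ex (φW G) (pW G p) q (Lf G (T x)) (ind (φW G) x y) ≤ α)
    (F : Finset G.edgeSet) : ∀ (k : ℕ) (x t : V), k * n ≤ G.dist x t →
      (∀ e : G.edgeSet, (∃ v ∈ (e : Sym2 V), G.dist x v < k * n) → e ∈ F) →
      ex (φW G) (pW G p) q (Lf G F ∪ Rt G (BF G F)) (ind (φW G) x t) ≤ α ^ k := by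
  have hP := pW_nonneg G hp
  have hP1 := pW_le_one G hp1
  intro k
  induction k with
  | zero =>
    intro x t _ _
    rw [pow_zero]
    exact ex_ind_le_one hP hP1 hq _ x t
  | succ k ih =>
    intro x t hxt hF
    set H : Finset (WE G) := Lf G F ∪ Rt G (BF G F) with hH
    set U : Set V := {v | G.dist x v < n} with hU
    have hle : n ≤ (k + 1) * n := Nat.le_mul_of_pos_left n (Nat.succ_pos k)
    have hTF : Lf G (T x) ⊆ H := by
      intro e he
      rcases e with e | z
      · rw [mem_Lf_inl, hT] at he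
        obtain ⟨v, hv, hd⟩ := he
        exact mem_union_left _ (mem_Lf_inl.mpr (hF e ⟨v, hv, lt_of_lt_of_le hd hle⟩))
      · exact absurd he not_mem_Lf_inr
    obtain ⟨K', hK'⟩ : ∃ K' : Finset (WE G), K' = H \ Lf G (T x) := ⟨_, rfl⟩
    have hmK : ∀ e, e ∈ K' ↔ e ∈ H ∧ e ∉ Lf G (T x) := by
      intro e; rw [hK', mem_sdiff]
    have hunion : ∀ i : DecidableEq (WE G), @Union.union _ (@Finset.instUnion _ i) (Lf G (T x))
        K' = H := by
      intro i
      have hmK : ∀ e, e ∈ K' ↔ e ∈ H ∧ e ∉ Lf G (T x) := hmK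
      clear hK'
      ext e
      rw [@Finset.mem_union _ i, hmK]
      constructor
      · rintro (h | h)
        · exact hTF h
        · exact h.1
      · intro h
        by_cases h1 : e ∈ Lf G (T x)
        · exact Or.inl h1
        · exact Or.inr ⟨h, h1⟩
    have htU : t ∉ U := by
      intro h
      have : G.dist x t < n := h
      omega
    have hK : ∀ e ∈ K', ∀ v ∈ φW G e, v ∉ U := by
      intro e he v hv hvU
      rw [hK', mem_sdiff, hH, mem_union] at he
      obtain ⟨he1, he2⟩ := he
      rcases e with e | ⟨a, b⟩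
      · exact he2 (mem_Lf_inl.mpr ((hT x e).mpr ⟨v, hv, hvU⟩))
      · rcases he1 with he1 | he1
        · exact not_mem_Lf_inr he1
        · rw [mem_Rt_inr] at he1
          have hvB : v ∈ BF G F := by
            have h1 : v = a ∨ v = b := by
              have h2 : v ∈ s(a, b) := hv
              rwa [Sym2.mem_iff] at h2
            rcases h1 with rfl | rfl
            · exact he1.1
            · exact he1.2
          obtain ⟨e', he', hve'⟩ := (mem_filter.mp hvB).2
          exact he' (hF e' ⟨v, hve', lt_of_lt_of_le hvU hle⟩)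
    have hFW : ∀ e ∈ Lf G (T x), ∀ v ∈ φW G e, v ∈ U ∨ v ∈ Sp x := by
      intro e he v hv
      rcases e with e | z
      · rw [mem_Lf_inl, hT] at he
        obtain ⟨w, hw, hd⟩ := he
        have hv' : v ∈ (e : Sym2 V) := hv
        have hdv : G.dist x v ≤ n := by
          by_cases hvw : v = w
          · subst hvw; exact hd.le
          · have hadj : G.Adj w v := by
              have h1 : (e : Sym2 V) = s(v, w) :=
                ((Sym2.mem_and_mem_iff hvw).mp ⟨hv', hw⟩)
              have h2 := e.2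
              rw [h1, SimpleGraph.mem_edgeSet] at h2
              exact h2.symm
            have h3 := hG.dist_triangle (u := x) (v := w) (w := v)
            have h4 : G.dist w v = 1 := SimpleGraph.dist_eq_one_iff_adj.mpr hadj
            omega
        rcases lt_or_eq_of_le hdv with h | h
        · exact Or.inl h
        · exact Or.inr ((hSp x v).mpr h)
      · exact absurd he not_mem_Lf_inr
    have hx : x ∈ U ∨ x ∈ Sp x := by
      have h0 : G.dist x x = 0 := SimpleGraph.dist_self
      rcases Nat.eq_zero_or_pos n with h | h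
      · right; rw [hSp, h0, h]
      · left
        have : G.dist x x < n := by omega
        exact this
    have key := lieb_aux (φ := φW G) hP hP1 hq hq2 hK htU (Lf G (T x)).card (Lf G (T x)) le_rfl
      hFW (by rw [hK']; exact disjoint_sdiff) (fun _ => 1) (fun _ => zero_le_one) (fun _ _ _ => le_rfl) x hx
    rw [hunion] at key
    simp only [one_mul] at key
    have e1 : (fun ω => ind (φW G) x t ω) = ind (φW G) x t := rfl
    rw [e1] at key
    refine key.trans ?_
    have hterm : ∀ y ∈ Sp x, ex (φW G) (pW G p) q (Lf G (T x)) (fun ω => ind (φW G) x y ω) *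
        ex (φW G) (pW G p) q H (ind (φW G) y t) ≤
        ex (φW G) (pW G p) q (Lf G (T x)) (ind (φW G) x y) * α ^ k := by
      intro y hy
      refine mul_le_mul_of_nonneg_left ?_ (ex_nonneg hP hP1 hq _ (ind_nonneg x y))
      have hxy := (hSp x y).mp hy
      have htri := hG.dist_triangle (u := x) (v := y) (w := t)
      have hmul : (k + 1) * n = k * n + n := by ring
      refine ih y t (by omega) ?_
      rintro e ⟨v, hv, hd⟩
      refine hF e ⟨v, hv, ?_⟩
      have htri2 := hG.dist_triangle (u := x) (v := y) (w := v)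
      omega
    refine (Finset.sum_le_sum hterm).trans ?_
    rw [← Finset.sum_mul, pow_succ, mul_comm (α ^ k)]
    exact mul_le_mul_of_nonneg_right (hsum x) (pow_nonneg hα k)

end Pool.Agent.Helper30.RCU
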