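import Pool.Agent.Helper30.RCU.Inf
import Pool.Agent.Helper30.RCU.Geo

/-! Project RCU: the main theorem. -/

set_option autoImplicit false

open Finset MeasureTheory

namespace Pool.Agent.Helper30.RCU

open Classical

universe u

section

variable {V : Type u} {G : SimpleGraph V} {p q : ℝ}

lemma ex_congr {ι : Type u} {φ : ι → Sym2 V} {p : ι → ℝ} {q : ℝ} {E : Finset ι}
    {f g : Finset ι → ℝ} (h : ∀ ω, ω ⊆ E → f ω = g ω) : ex φ p q E f = ex φ p q E g := by
  unfold ex S
  congr 1
  exact Finset.sum_congr rfl fun ω hω => by rw [h ω (mem_powerset.mp hω)]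

/-- the free two-point function in the edges `F` -/
noncomputable def tau (G : SimpleGraph V) (p q : ℝ) (F : Finset G.edgeSet) (x y : V) : ℝ :=
  ex (φW G) (pW G p) q (Lf G F) (ind (φW G) x y)

lemma union_sdiff_inter {F η : Finset G.edgeSet} (hη : η ⊆ F) (ξ : Set G.edgeSet) :
    ((η : Set G.edgeSet) ∪ (ξ \ (F : Set G.edgeSet))) ∩ (F : Set G.edgeSet) = η := by
  ext e
  constructor
  · rintro ⟨h1 | h1, h2⟩
    · exact h1
    · exact absurd h2 h1.2
  · intro h
    exact ⟨Or.inl h, hη h⟩

/-- Bounds for the probability of a connection inside `F`. -/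
lemma conn_bounds (hp : 0 ≤ p) (hp1 : p ≤ 1) (hq : 1 ≤ q) {μ : Measure (Set G.edgeSet)}
    (hμ : IsRandomCluster G p q μ) (F : Finset G.edgeSet) (x y : V) :
    ENNReal.ofReal (tau G p q F x y) ≤
        μ {ω | (openGraph G (ω ∩ (F : Set G.edgeSet))).Reachable x y} ∧
    μ {ω | (openGraph G (ω ∩ (F : Set G.edgeSet))).Reachable x y} ≤
      ENNReal.ofReal (ex (φW G) (pW G p) q (Lf G F ∪ Rt G (BF G F)) (ind (φW G) x y)) := by
  have hP := pW_nonneg G hp
  have hP1 := pW_le_one G hp1
  refine measure_bounds hμ F (measurable_local F fun ω => (openGraph G ω).Reachable x y) ?_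
  intro ξ
  have hiff : ∀ η : Finset G.edgeSet, η ⊆ F →
      ((η : Set G.edgeSet) ∪ (ξ \ (F : Set G.edgeSet)) ∈
        {ω : Set G.edgeSet | (openGraph G (ω ∩ (F : Set G.edgeSet))).Reachable x y} ↔
        Conn (fun e : G.edgeSet => (e : Sym2 V)) (η : Set G.edgeSet) x y) := by
    intro η hη
    show (openGraph G (((η : Set G.edgeSet) ∪ (ξ \ (F : Set G.edgeSet))) ∩
      (F : Set G.edgeSet))).Reachable x y ↔ _
    rw [union_sdiff_inter hη ξ]
    exact Iff.rfl
  rw [kernel_eq F ξ _ (ind (fun e : G.edgeSet => (e : Sym2 V)) x y)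
    (fun η hη h => if_pos ((hiff η hη).mp h))
    (fun η hη h => if_neg (fun h' => h ((hiff η hη).mpr h')))]
  have hs := sandwich Pool.Agent.Helper37.RCU.hCB G hp hp1 hq F ξ
    (ind (fun e : G.edgeSet => (e : Sym2 V)) x y) (ind_nonneg x y) (ind_mono x y)
  refine ⟨le_trans (le_of_eq ?_) hs.1, le_trans hs.2 ?_⟩
  · unfold tau
    refine ex_congr fun ω hω => ?_
    unfold ind
    by_cases h : Conn (φW G) ω x y
    · rw [if_pos h, if_pos (conn_toLeft' hω h)]
    · rw [if_neg h, if_neg (fun h' => h (conn_toLeft h'))]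
  · refine ex_le hP hP1 hq _ fun ω => ?_
    unfold ind
    by_cases h : Conn (fun e : G.edgeSet => (e : Sym2 V)) (ω.toLeft : Set G.edgeSet) x y
    · rw [if_pos h, if_pos (conn_toLeft h)]
    · rw [if_neg h]
      split_ifs <;> norm_num

/-- Invariance of the free two-point function under automorphisms. -/
lemma tau_iso (g : G ≃g G) (F F' : Finset G.edgeSet)
    (hF : ∀ e : G.edgeSet, g.mapEdgeSet e ∈ F' ↔ e ∈ F) (x y : V) :
    tau G p q F' (g x) (g y) = tau G p q F x y := by
  unfold tau
  have key := Pool.Agent.Helper74.RCU.hTR V V (WE G) (WE G)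
    ((Equiv.sumCongr g.mapEdgeSet (Equiv.prodCongr g.toEquiv g.toEquiv)).toEmbedding)
    g.toEquiv.toEmbedding (φW G) (φW G) (pW G p) (pW G p) q ?_ ?_ (Lf G F) x y
  · rw [← key]
    congr 1
    ext e
    rw [Finset.mem_map]
    constructor
    · intro he
      rcases e with e | z
      · refine ⟨Sum.inl (g.mapEdgeSet.symm e), mem_Lf_inl.mpr ?_, ?_⟩
        · rw [← hF, Equiv.apply_symm_apply]
          exact mem_Lf_inl.mp he
        · show (Sum.inl (g.mapEdgeSet (g.mapEdgeSet.symm e)) : WE G) = Sum.inl e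
          rw [Equiv.apply_symm_apply]
      · exact absurd he not_mem_Lf_inr
    · rintro ⟨e', he', rfl⟩
      rcases e' with e' | z
      · exact mem_Lf_inl.mpr ((hF e').mpr (mem_Lf_inl.mp he'))
      · exact absurd he' not_mem_Lf_inr
  · intro e
    rcases e with e | z
    · rfl
    · rfl
  · intro e
    rcases e with e | z
    · rfl
    · rfl

/-- The increasing cylinder event `K ⊆ ω`. -/
def cyl (G : SimpleGraph V) (K : Finset G.edgeSet) : Set (Set G.edgeSet) :=
  {ω | (K : Set G.edgeSet) ⊆ ω}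

lemma measurable_cyl (K : Finset G.edgeSet) : MeasurableSet (cyl G K) := by
  have h := measurable_local K (fun ω : Set G.edgeSet => (K : Set G.edgeSet) ⊆ ω)
  have e : cyl G K = {ω : Set G.edgeSet | (K : Set G.edgeSet) ⊆ ω ∩ (K : Set G.edgeSet)} := by
    ext ω
    constructor
    · intro h e he
      exact ⟨h he, he⟩
    · intro h e he
      exact (h he).1
  rw [e]
  exact h

/-- Two measures which agree on the increasing cylinder events are equal. -/
lemma ext_cyl {μ ν : Measure (Set G.edgeSet)} (hμ : IsProbabilityMeasure μ)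
    (hν : IsProbabilityMeasure ν) (h : ∀ K : Finset G.edgeSet, μ (cyl G K) = ν (cyl G K)) :
    μ = ν := by
  refine ext_of_generate_finite (Set.range (cyl G)) ?_ ?_ ?_ (by simp)
  · refine le_antisymm ?_ ?_
    · -- the sigma-algebra is generated by the events `e ∈ ω`
      have h1 : @Measurable _ _ (MeasurableSpace.generateFrom (Set.range (cyl G)))
          (Set.instMeasurableSpace) (fun s : Set G.edgeSet => s) := by
        refine (@measurable_set_iff _ _ (MeasurableSpace.generateFrom (Set.range (cyl G)))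
          (fun s : Set G.edgeSet => s)).mpr fun a => ?_
        refine (@measurableSet_setOfPred _ (MeasurableSpace.generateFrom (Set.range (cyl G)))
          (fun s : Set G.edgeSet => a ∈ s)).mp ?_
        refine MeasurableSpace.measurableSet_generateFrom ⟨{a}, ?_⟩
        ext ω
        simp [cyl]
      intro s hs
      exact h1 hs
    · refine MeasurableSpace.generateFrom_le ?_
      rintro _ ⟨K, rfl⟩
      exact measurable_cyl K
  · rintro _ ⟨K, rfl⟩ _ ⟨L, rfl⟩ _
    refine ⟨K ∪ L, ?_⟩
    ext ω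
    simp [cyl]
  · rintro _ ⟨K, rfl⟩
    exact h K

/-- Comparison of two measures on a cylinder event. -/
lemma cyl_bounds (hp : 0 ≤ p) (hp1 : p ≤ 1) (hq : 1 ≤ q) {μ ν : Measure (Set G.edgeSet)}
    (hμ : IsRandomCluster G p q μ) (hν : IsRandomCluster G p q ν) (F K : Finset G.edgeSet)
    (hKF : K ⊆ F) (c : ℝ) (hc : 0 ≤ c)
    (hbd : ∀ x ∈ VF G K, ∀ z ∈ BF G F,
      ex (φW G) (pW G p) q (Lf G F ∪ Rt G (BF G F)) (ind (φW G) x z) ≤ c) :
    μ (cyl G K) ≤ ν (cyl G K) + ENNReal.ofReal ((VF G K).card * c) := by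
  have hP := pW_nonneg G hp
  have hP1 := pW_le_one G hp1
  set g : Finset G.edgeSet → ℝ := fun η => if K ⊆ η then 1 else 0 with hg
  have hg0 : ∀ η, 0 ≤ g η := fun η => by rw [hg]; dsimp only; split_ifs <;> norm_num
  have hg1 : ∀ η, g η ≤ 1 := fun η => by rw [hg]; dsimp only; split_ifs <;> norm_num
  have hgm : Monotone g := by
    intro a b hab
    rw [hg]
    dsimp only
    by_cases h : K ⊆ a
    · rw [if_pos h, if_pos (h.trans hab)]
    · rw [if_neg h]; split_ifs <;> norm_num
  have hgK : ∀ η, g η = g (η ∩ K) := by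
    intro η
    rw [hg]
    dsimp only
    have : K ⊆ η ↔ K ⊆ η ∩ K := by
      constructor
      · exact fun h => subset_inter h subset_rfl
      · exact fun h => h.trans inter_subset_left
    simp only [this]
  have hk : ∀ ξ, kernel G p q F ξ (cyl G K) = kI G p q F ξ g := by
    intro ξ
    refine kernel_eq F ξ _ g (fun η hη h => if_pos ?_) (fun η hη h => if_neg fun h' => h ?_)
    · intro e he
      rcases h (show e ∈ (K : Set G.edgeSet) from he) with h1 | h1
      · exact h1
      · exact absurd (hKF he) h1.2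
    · intro e he
      exact Or.inl (h' he)
  have hs := fun ξ => sandwich Pool.Agent.Helper37.RCU.hCB G hp hp1 hq F ξ g hg0 hgm
  have hwf := wired_free Pool.Agent.Helper41.RCU.hMK G hp hp1 hq F K hKF g hg0 hg1 hgm hgK c hc hbd
  have b1 := (measure_bounds hμ F (measurable_cyl K) (a := ex (φW G) (pW G p) q (Lf G F)
    (fun ω => g ω.toLeft)) (b := ex (φW G) (pW G p) q (Lf G F) (fun ω => g ω.toLeft) +
      (VF G K).card * c) fun ξ => by
      rw [hk]
      exact ⟨(hs ξ).1, (hs ξ).2.trans hwf⟩).2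
  have b2 := (measure_bounds hν F (measurable_cyl K) (a := ex (φW G) (pW G p) q (Lf G F)
    (fun ω => g ω.toLeft)) (b := ex (φW G) (pW G p) q (Lf G F) (fun ω => g ω.toLeft) +
      (VF G K).card * c) fun ξ => by
      rw [hk]
      exact ⟨(hs ξ).1, (hs ξ).2.trans hwf⟩).1
  have hnn : 0 ≤ ex (φW G) (pW G p) q (Lf G F) (fun ω => g ω.toLeft) :=
    ex_nonneg hP hP1 hq _ fun ω => hg0 _
  have hcn : 0 ≤ ((VF G K).card : ℝ) * c := mul_nonneg (Nat.cast_nonneg _) hc
  rw [ENNReal.ofReal_add hnn hcn] at b1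
  exact b1.trans (add_le_add_left b2 _)

end

/-- The main theorem. -/
theorem main {V : Type u} (G : SimpleGraph V) (hG : G.Connected)
    (hlf : ∀ v, (G.neighborSet v).Finite) (htr : ∀ x y : V, ∃ g : G ≃g G, g x = y)
    {p q : ℝ} (hp : 0 ≤ p) (hp1 : p ≤ 1) (hq : 1 ≤ q) (hq2 : q ≤ 2)
    {μ : Measure (Set G.edgeSet)} (hμ : IsRandomCluster G p q μ) (x₀ : V) (n : ℕ)
    (hsum : ∑' y : {y : V | G.dist x₀ y = n}, μ {ω | (openGraph G ω).Reachable x₀ y} < 1) :
    (∀ ν : Measure (Set G.edgeSet), IsRandomCluster G p q ν → ν = μ) ∧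
    ∀ y z : V, μ {ω | (openGraph G ω).Reachable y z} ≤
      (∑' y : {y : V | G.dist x₀ y = n}, μ {ω | (openGraph G ω).Reachable x₀ y}) ^
        (G.dist y z / n) := by
  have hP := pW_nonneg G hp
  have hP1 := pW_le_one G hp1
  obtain ⟨s, hs⟩ : ∃ s, s = ∑' y : {y : V | G.dist x₀ y = n},
    μ {ω | (openGraph G ω).Reachable x₀ y} := ⟨_, rfl⟩
  rw [← hs] at hsum ⊢
  have hstop : s ≠ ⊤ := ne_top_of_lt hsum
  set α : ℝ := s.toReal with hα
  have hα0 : 0 ≤ α := ENNReal.toReal_nonneg
  have hα1 : α < 1 := by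
    rw [hα, ← ENNReal.toReal_one]
    exact (ENNReal.toReal_lt_toReal hstop ENNReal.one_ne_top).mpr hsum
  -- balls and spheres
  set T : V → Finset G.edgeSet := fun x => (touch_ball_finite hG hlf x n).toFinset with hTdef
  have hT : ∀ x e, e ∈ T x ↔ ∃ v ∈ (e : Sym2 V), G.dist x v < n := by
    intro x e
    rw [hTdef]
    exact Set.Finite.mem_toFinset _
  set Sp : V → Finset V := fun x => (sphere_finite hG hlf x n).toFinset with hSpdef
  have hSp : ∀ x y, y ∈ Sp x ↔ G.dist x y = n := by
    intro x y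
    rw [hSpdef]
    exact Set.Finite.mem_toFinset _
  -- the sum at `x₀`
  have h0 : ∑ y ∈ Sp x₀, tau G p q (T x₀) x₀ y ≤ α := by
    have h1 : ∀ y, ENNReal.ofReal (tau G p q (T x₀) x₀ y) ≤
        μ {ω | (openGraph G ω).Reachable x₀ y} := by
      intro y
      refine (conn_bounds hp hp1 hq hμ (T x₀) x₀ y).1.trans (measure_mono ?_)
      intro ω hω
      exact SimpleGraph.Reachable.mono (gr_mono (φ := fun e : G.edgeSet => (e : Sym2 V))
        Set.inter_subset_left) hω
    have h2 : ∑ y ∈ Sp x₀, μ {ω | (openGraph G ω).Reachable x₀ y} = s := by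
      rw [hs]
      have h3 : {y : V | G.dist x₀ y = n} = ((Sp x₀ : Finset V) : Set V) := by
        ext y
        rw [Finset.mem_coe, hSp]
        exact Iff.rfl
      rw [h3]
      exact (Finset.tsum_subtype' (Sp x₀)
        (fun y => μ {ω | (openGraph G ω).Reachable x₀ y})).symm
    have h4 : ENNReal.ofReal (∑ y ∈ Sp x₀, tau G p q (T x₀) x₀ y) ≤ s := by
      rw [ENNReal.ofReal_sum_of_nonneg (f := fun y => tau G p q (T x₀) x₀ y)
        (fun y _ => ex_nonneg hP hP1 hq _ (ind_nonneg x₀ y)), ← h2]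
      exact Finset.sum_le_sum fun y _ => h1 y
    have h5 := (ENNReal.ofReal_le_iff_le_toReal hstop).mp h4
    exact h5
  -- the sum at every vertex
  have hall : ∀ x, ∑ y ∈ Sp x, ex (φW G) (pW G p) q (Lf G (T x)) (ind (φW G) x y) ≤ α := by
    intro x
    obtain ⟨g, rfl⟩ := htr x₀ x
    refine le_trans (le_of_eq ?_) h0
    have h1 : Sp (g x₀) = (Sp x₀).map g.toEquiv.toEmbedding := by
      ext y
      rw [hSp, Finset.mem_map]
      constructor
      · intro h
        refine ⟨g.symm y, ?_, by simp⟩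
        rw [hSp, ← dist_iso hG g]
        simpa using h
      · rintro ⟨z, hz, rfl⟩
        rw [hSp] at hz
        rw [← hz]
        exact dist_iso hG g x₀ z
    rw [h1, Finset.sum_map]
    refine Finset.sum_congr rfl fun y _ => ?_
    refine tau_iso g (T x₀) (T (g x₀)) ?_ x₀ y
    intro e
    rw [hT, hT]
    constructor
    · rintro ⟨v, hv, hd⟩
      have hv' : v ∈ Sym2.map g (e : Sym2 V) := hv
      obtain ⟨w, hw, rfl⟩ := Sym2.mem_map.mp hv'
      exact ⟨w, hw, by rwa [dist_iso hG g] at hd⟩
    · rintro ⟨v, hv, hd⟩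
      refine ⟨g v, ?_, by rwa [dist_iso hG g]⟩
      show g v ∈ Sym2.map g (e : Sym2 V)
      exact Sym2.mem_map.mpr ⟨v, hv, rfl⟩
  have hiter := iter G hG hp hp1 hq hq2 n hα0 T hT Sp hSp hall
  refine ⟨?_, ?_⟩
  · -- uniqueness
    intro ν hν
    have hle : ∀ μ ν : Measure (Set G.edgeSet), IsRandomCluster G p q μ →
        IsRandomCluster G p q ν → ∀ K : Finset G.edgeSet, μ (cyl G K) ≤ ν (cyl G K) := by
      intro μ ν hμ hν K
      have hk : ∀ k : ℕ, μ (cyl G K) ≤ ν (cyl G K) +
          ENNReal.ofReal ((VF G K).card * α ^ k) := by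
        intro k
        -- a finite set of edges which contains `K` and everything near the vertices of `K`
        have hfin : (⋃ x ∈ VF G K, {e : G.edgeSet |
            ∃ v ∈ (e : Sym2 V), G.dist x v < k * n}).Finite :=
          (VF G K).finite_toSet.biUnion fun x _ => touch_ball_finite hG hlf x (k * n)
        obtain ⟨F, hF⟩ : ∃ F : Finset G.edgeSet, F = K ∪ hfin.toFinset := ⟨_, rfl⟩
        have hnear : ∀ x ∈ VF G K, ∀ e : G.edgeSet,
            (∃ v ∈ (e : Sym2 V), G.dist x v < k * n) → e ∈ F := by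
          intro x hx e he
          rw [hF]
          refine mem_union_right _ ?_
          rw [Set.Finite.mem_toFinset]
          exact Set.mem_biUnion hx he
        refine cyl_bounds hp hp1 hq hμ hν F K (by rw [hF]; exact subset_union_left) (α ^ k)
          (pow_nonneg hα0 k) ?_
        intro x hx z hz
        refine hiter F k x z ?_ (hnear x hx)
        by_contra hcon
        push Not at hcon
        obtain ⟨e, he, hze⟩ := (mem_filter.mp hz).2
        exact he (hnear x hx e ⟨z, hze, hcon⟩)
      have hlim : Filter.Tendsto (fun k : ℕ => ν (cyl G K) +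
          ENNReal.ofReal ((VF G K).card * α ^ k)) Filter.atTop (nhds (ν (cyl G K) + 0)) := by
        refine Filter.Tendsto.add tendsto_const_nhds ?_
        have h1 : Filter.Tendsto (fun k : ℕ => ((VF G K).card : ℝ) * α ^ k) Filter.atTop
            (nhds (((VF G K).card : ℝ) * 0)) :=
          (tendsto_pow_atTop_nhds_zero_of_lt_one hα0 hα1).const_mul _
        rw [mul_zero] at h1
        have h2 := ENNReal.tendsto_ofReal h1
        rwa [ENNReal.ofReal_zero] at h2
      have := ge_of_tendsto' hlim hk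
      rwa [add_zero] at this
    exact ext_cyl hν.isProbabilityMeasure hμ.isProbabilityMeasure fun K =>
      le_antisymm (hle ν μ hν hμ K) (hle μ ν hμ hν K)
  · -- exponential decay
    intro y z
    obtain ⟨k, hk⟩ : ∃ k, k = G.dist y z / n := ⟨_, rfl⟩
    rw [← hk]
    have hkn : k * n ≤ G.dist y z := by rw [hk]; exact Nat.div_mul_le_self _ _
    -- exhaustion by balls
    have hball : ∀ N : ℕ, {e : G.edgeSet | ∃ v ∈ (e : Sym2 V), G.dist y v < k * n + N}.Finite :=
      fun N => touch_ball_finite hG hlf y (k * n + N)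
    set B : ℕ → Finset G.edgeSet := fun N => (hball N).toFinset with hB
    have hBm : ∀ N e, e ∈ B N ↔ ∃ v ∈ (e : Sym2 V), G.dist y v < k * n + N := by
      intro N e
      rw [hB]
      exact Set.Finite.mem_toFinset _
    have hBmono : ∀ N N', N ≤ N' → B N ⊆ B N' := by
      intro N N' h e he
      rw [hBm] at he ⊢
      obtain ⟨v, hv, hd⟩ := he
      exact ⟨v, hv, by omega⟩
    have hunion : {ω : Set G.edgeSet | (openGraph G ω).Reachable y z} ⊆
        ⋃ N : ℕ, {ω | (openGraph G (ω ∩ (B N : Set G.edgeSet))).Reachable y z} := by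
      intro ω hω
      have hω' : Conn (fun e : G.edgeSet => (e : Sym2 V)) ω y z := hω
      have key : ∀ a b, Conn (fun e : G.edgeSet => (e : Sym2 V)) ω a b →
          ∃ N : ℕ, Conn (fun e : G.edgeSet => (e : Sym2 V)) (ω ∩ (B N : Set G.edgeSet)) a b := by
        intro a b hab
        obtain ⟨w⟩ := hab
        induction w with
        | nil => exact ⟨0, Conn.refl _ _⟩
        | @cons a b c hadj _ ih =>
          obtain ⟨N, hN⟩ := ih
          rw [gr, SimpleGraph.fromEdgeSet_adj] at hadj
          obtain ⟨⟨e, he, hee⟩, -⟩ := hadj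
          refine ⟨max N (G.dist y a + 1), ?_⟩
          have h1 : e ∈ B (max N (G.dist y a + 1)) := by
            rw [hBm]
            refine ⟨a, ?_, ?_⟩
            · have h2 : (e : Sym2 V) = s(a, b) := hee
              rw [h2]
              exact Sym2.mem_mk_left _ _
            · have := le_max_right N (G.dist y a + 1)
              omega
          refine Conn.trans (conn_of_mem (e := e) hee ⟨he, h1⟩) (hN.mono ?_)
          exact Set.inter_subset_inter_right _ (by
            exact_mod_cast hBmono N _ (le_max_left _ _))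
      obtain ⟨N, hN⟩ := key y z hω'
      exact Set.mem_iUnion.mpr ⟨N, hN⟩
    have hmono : Monotone fun N : ℕ =>
        {ω : Set G.edgeSet | (openGraph G (ω ∩ (B N : Set G.edgeSet))).Reachable y z} := by
      intro N N' h ω hω
      exact SimpleGraph.Reachable.mono (gr_mono (φ := fun e : G.edgeSet => (e : Sym2 V))
        (Set.inter_subset_inter_right _ (by exact_mod_cast hBmono N N' h))) hω
    refine (measure_mono hunion).trans ?_
    rw [hmono.measure_iUnion]
    refine iSup_le fun N => ?_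
    refine (conn_bounds hp hp1 hq hμ (B N) y z).2.trans ?_
    have h1 := hiter (B N) k y z hkn (by
      rintro e ⟨v, hv, hd⟩
      rw [hBm]
      exact ⟨v, hv, by omega⟩)
    refine (ENNReal.ofReal_le_ofReal h1).trans (le_of_eq ?_)
    rw [ENNReal.ofReal_pow hα0, hα, ENNReal.ofReal_toReal hstop]

end Pool.Agent.Helper30.RCU
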